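import Pool.Agent.Smx.Ineq

/-!
# The bounds for star families of `ℓ_1^m`
-/

set_option autoImplicit false

open scoped BigOperators

namespace Pool.Agent.Smx

theorem sum4 {N : ℕ} (s : Fin N → ℝ) (hs : ∀ i, 0 ≤ s i) (f : Fin 4 → Fin N)
    (hf : Function.Injective f) : s (f 0) + s (f 1) + s (f 2) + s (f 3) ≤ ∑ i, s i := by
  classical
  have h1 : ∑ j, s (f j) ≤ ∑ i, s i := by
    rw [← Finset.sum_image (f := s) (s := Finset.univ) (g := f) (fun a _ b _ h => hf h)]
    exact Finset.sum_le_sum_of_subset_of_nonneg (Finset.subset_univ _) fun i _ _ => hs i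
  rw [Fin.sum_univ_four] at h1
  exact h1

/-- `log x ≤ x / y - 1 + log y`. -/
theorem log_tan {x y : ℝ} (hx : 0 < x) (hy : 0 < y) : Real.log x ≤ x / y - 1 + Real.log y := by
  have h1 := Real.log_le_sub_one_of_pos (div_pos hx hy)
  rw [Real.log_div hx.ne' hy.ne'] at h1
  linarith

theorem e_le {m N : ℕ} {b : Fin N → Fin m → ℝ} {e : Fin N → ℝ} {z : Fin N}
    (hstar : ∀ i j, i ≠ j → ∑ k, |b i k - b j k| = e i + e j) (hz : e z = 1)
    (hb0 : ∀ k, b z k = 0) (hb : ∀ i k, |b i k| ≤ 1) (i : Fin N) (hi : i ≠ z) :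
    e i ≤ (m : ℝ) - 1 ∧ ∑ k, |b i k| = e i + 1 := by
  have h1 := hstar i z hi
  rw [hz] at h1
  have h2 : ∀ k, |b i k - b z k| = |b i k| := fun k => by rw [hb0, sub_zero]
  simp only [h2] at h1
  have h3 : ∑ k, |b i k| ≤ ∑ _k : Fin m, (1 : ℝ) := Finset.sum_le_sum fun k _ => hb i k
  simp only [Finset.sum_const, Finset.card_univ, Fintype.card_fin, nsmul_eq_mul, mul_one] at h3
  exact ⟨by linarith, h1⟩

/-- The `ℓ_1` logarithmic bound. -/
theorem star_log {m N : ℕ} (a : Fin N → Fin m → ℝ) (c : Fin N → ℝ) (hc : ∀ i, 0 < c i)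
    (h : ∀ i j, i ≠ j → ∑ k, |a i k - a j k| = c i + c j) :
    (N : ℝ) ≤ (4 * m * Real.log m + 2 * m + 4) / 3 := by
  rcases Nat.eq_zero_or_pos m with hm0 | hm0
  · subst hm0
    have hN1 : N ≤ 1 := by
      by_contra hN
      have h1 := h ⟨0, by omega⟩ ⟨1, by omega⟩ (by simp [Fin.ext_iff])
      have h2 := hc ⟨0, by omega⟩
      have h3 := hc ⟨1, by omega⟩
      simp at h1
      linarith
    have : (N : ℝ) ≤ 1 := by exact_mod_cast hN1
    norm_num
    linarith
  have hmr : (1 : ℝ) ≤ m := by exact_mod_cast hm0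
  have hlog : 1 - 1 / (m : ℝ) ≤ Real.log m := by
    have := Real.one_sub_inv_le_log_of_pos (by linarith : (0 : ℝ) < m)
    simpa using this
  have hml : (m : ℝ) - 1 ≤ m * Real.log m := by
    have h1 := mul_le_mul_of_nonneg_left hlog (by linarith : (0 : ℝ) ≤ m)
    have h2 : (m : ℝ) * (1 - 1 / m) = m - 1 := by field_simp
    linarith
  rcases Nat.lt_or_ge (2 * m) N with h2m | h2m
  swap
  · have : (N : ℝ) ≤ 2 * m := by exact_mod_cast h2m
    linarith
  obtain ⟨b, e, z, hstar, hz, he1, hb0, hb, htop, hbot⟩ := norm_star (by omega) h2m a c hc h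
  -- another member
  have hexi : ∃ i, i ≠ z := by
    by_contra hno
    push Not at hno
    have h1 := hno ⟨0, by omega⟩
    have h2 := hno ⟨1, by omega⟩
    rw [← h2] at h1
    simp [Fin.ext_iff] at h1
  obtain ⟨i0, hi0⟩ := hexi
  have h20 := (e_le hstar hz hb0 hb i0 hi0).1
  have h21 := he1 i0
  have hm2 : (2 : ℝ) ≤ m := by linarith
  have hm2' : 2 ≤ m := by exact_mod_cast hm2
  have hem : ∀ i, e i ≤ (m : ℝ) - 1 := by
    intro i
    by_cases hi : i = z
    · rw [hi, hz]; linarith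
    · exact (e_le hstar hz hb0 hb i hi).1
  obtain ⟨M, rfl⟩ : ∃ M, N = M + 4 := ⟨N - 4, by omega⟩
  have he0 : ∀ i, 0 < e i := fun i => lt_of_lt_of_le one_pos (he1 i)
  obtain ⟨f, hf, hmain⟩ := main_ineq b e he0 hstar htop hbot
  set ρ : ℝ := ∑ i, 1 / e i with hρ
  have hs0 : ∀ i, 0 < 1 / e i := fun i => by have := he0 i; positivity
  have hρN : ρ ≤ ((M + 4 : ℕ) : ℝ) := by
    have h1 : ρ ≤ ∑ _i : Fin (M + 4), (1 : ℝ) := by
      refine Finset.sum_le_sum fun i _ => ?_
      rw [div_le_one (he0 i)]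
      exact he1 i
    simpa using h1
  have hrange : ∀ p q : Fin (M + 4), 1 / e p + 1 / e q < ρ →
      Real.log (ρ / (1 / e p + 1 / e q) - 1) ≤
        ((M + 4 : ℕ) : ℝ) / (2 * m) - 1 + 2 * Real.log m := by
    intro p q hpq
    have hS : 0 < 1 / e p + 1 / e q := add_pos (hs0 p) (hs0 q)
    have hx : 0 < ρ / (1 / e p + 1 / e q) - 1 := by
      rw [sub_pos, one_lt_div hS]; exact hpq
    have h1 := log_tan hx (by positivity : (0 : ℝ) < (m : ℝ) ^ 2)
    have h2 : Real.log ((m : ℝ) ^ 2) = 2 * Real.log m := by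
      rw [Real.log_pow]; norm_num
    rw [h2] at h1
    have h3 : ρ / (1 / e p + 1 / e q) ≤ ((M + 4 : ℕ) : ℝ) * m / 2 := by
      have h4 : 2 / (m : ℝ) ≤ 1 / e p + 1 / e q := by
        have h5 : ∀ i, 1 / (m : ℝ) ≤ 1 / e i := fun i =>
          one_div_le_one_div_of_le (he0 i) (by linarith [hem i])
        have h6 := h5 p
        have h7 := h5 q
        have h8 : 2 / (m : ℝ) = 1 / m + 1 / m := by ring
        linarith
      rw [div_le_iff₀ hS]
      calc ρ ≤ ((M + 4 : ℕ) : ℝ) := hρN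
        _ = ((M + 4 : ℕ) : ℝ) * m / 2 * (2 / m) := by field_simp
        _ ≤ _ := mul_le_mul_of_nonneg_left h4 (by positivity)
    have h4 : (ρ / (1 / e p + 1 / e q) - 1) / (m : ℝ) ^ 2 ≤ ((M + 4 : ℕ) : ℝ) / (2 * m) := by
      rw [div_le_iff₀ (by positivity)]
      have h5 : ((M + 4 : ℕ) : ℝ) / (2 * m) * (m : ℝ) ^ 2 = ((M + 4 : ℕ) : ℝ) * m / 2 := by
        field_simp
      rw [h5]
      linarith
    linarith
  have hk : ∀ k : Fin m, 1 + 1 / 4 *
        (Real.log (ρ / (1 / e (f k 0) + 1 / e (f k 1)) - 1) +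
          Real.log (ρ / (1 / e (f k 2) + 1 / e (f k 3)) - 1)) ≤
      1 + 1 / 2 * (((M + 4 : ℕ) : ℝ) / (2 * m) - 1 + 2 * Real.log m) := by
    intro k
    have h1 := sum4 (fun i => 1 / e i) (fun i => (hs0 i).le) (f k) (hf k)
    have h2 := hrange (f k 0) (f k 1) (by linarith [hs0 (f k 2), hs0 (f k 3)])
    have h3 := hrange (f k 2) (f k 3) (by linarith [hs0 (f k 0), hs0 (f k 1)])
    linarith
  have h5 := hmain.trans (Finset.sum_le_sum fun k _ => hk k)
  simp only [Finset.sum_const, Finset.card_univ, Fintype.card_fin, nsmul_eq_mul] at h5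
  have h6 : (m : ℝ) * (1 + 1 / 2 * (((M + 4 : ℕ) : ℝ) / (2 * m) - 1 + 2 * Real.log m)) =
      m / 2 + ((M + 4 : ℕ) : ℝ) / 4 + m * Real.log m := by
    field_simp
    ring
  rw [h6] at h5
  push_cast at h5 ⊢
  linarith

theorem quad_abs {a b c d : ℝ} (ha : |a| ≤ 1) (hb : |b| ≤ 1) (hc : |c| ≤ 1) (hd : |d| ≤ 1) :
    |a - b| + |a - c| + |a - d| + |b - c| + |b - d| + |c - d| ≤ 4 + |a| + |b| + |c| + |d| := by
  have key : ∀ a b c d : ℝ, |a| ≤ 1 → |d| ≤ 1 → b ≤ a → c ≤ b → d ≤ c →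
      |a - b| + |a - c| + |a - d| + |b - c| + |b - d| + |c - d| ≤ 4 + |a| + |b| + |c| + |d| := by
    intro a b c d ha hd hba hcb hdc
    rw [abs_of_nonneg (by linarith : 0 ≤ a - b), abs_of_nonneg (by linarith : 0 ≤ a - c),
      abs_of_nonneg (by linarith : 0 ≤ a - d), abs_of_nonneg (by linarith : 0 ≤ b - c),
      abs_of_nonneg (by linarith : 0 ≤ b - d), abs_of_nonneg (by linarith : 0 ≤ c - d)]
    have h1 : 3 * a - |a| ≤ 2 := by
      have := (abs_le.1 ha).2
      have := le_abs_self a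
      linarith
    have h2 : -3 * d - |d| ≤ 2 := by
      have := (abs_le.1 hd).1
      have := neg_le_abs d
      linarith
    have h3 := le_abs_self b
    have h4 := neg_le_abs c
    linarith
  have s1 := abs_sub_comm a b
  have s2 := abs_sub_comm a c
  have s3 := abs_sub_comm a d
  have s4 := abs_sub_comm b c
  have s5 := abs_sub_comm b d
  have s6 := abs_sub_comm c d
  rcases le_total a b with h1 | h1 <;> rcases le_total b c with h2 | h2 <;>
    rcases le_total c d with h3 | h3 <;> rcases le_total a c with h4 | h4 <;>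
    rcases le_total b d with h5 | h5 <;> rcases le_total a d with h6 | h6 <;>
    first
    | linarith [key a b c d ha hd h1 h2 h3]
    | linarith [key a b d c ha hc h1 h5 h3]
    | linarith [key a c b d ha hd h4 h2 h5]
    | linarith [key a c d b ha hb h4 h3 h5]
    | linarith [key a d b c ha hc h6 h5 h2]
    | linarith [key a d c b ha hb h6 h3 h2]
    | linarith [key b a c d hb hd h1 h4 h3]
    | linarith [key b a d c hb hc h1 h6 h3]
    | linarith [key b c a d hb hd h2 h4 h6]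
    | linarith [key b c d a hb ha h2 h3 h6]
    | linarith [key b d a c hb hc h5 h6 h4]
    | linarith [key b d c a hb ha h5 h3 h4]
    | linarith [key c a b d hc hd h4 h1 h5]
    | linarith [key c a d b hc hb h4 h6 h5]
    | linarith [key c b a d hc hd h2 h1 h6]
    | linarith [key c b d a hc ha h2 h5 h6]
    | linarith [key c d a b hc hb h3 h6 h1]
    | linarith [key c d b a hc ha h3 h5 h1]
    | linarith [key d a b c hd hc h6 h1 h2]
    | linarith [key d a c b hd hb h6 h4 h2]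
    | linarith [key d b a c hd hc h5 h1 h4]
    | linarith [key d b c a hd ha h5 h2 h4]
    | linarith [key d c a b hd hb h3 h4 h1]
    | linarith [key d c b a hd ha h3 h2 h1]

theorem tri_abs {a b c : ℝ} (ha : |a| ≤ 1) (hb : |b| ≤ 1) (hc : |c| ≤ 1) :
    |a - b| + |a - c| + |b - c| ≤ 4 := by
  rw [abs_le] at ha hb hc
  rcases abs_cases (a - b) with h1 | h1 <;> rcases abs_cases (a - c) with h2 | h2 <;>
    rcases abs_cases (b - c) with h3 | h3 <;> linarith [ha.1, ha.2, hb.1, hb.2, hc.1, hc.2]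

/-- The numerical inequality for `m = 4`. -/
theorem num4 {x y u v ρ : ℝ} (hx : 1 ≤ x) (hy : 1 ≤ y) (hu : 1 ≤ u) (hv : 1 ≤ v)
    (hx3 : x ≤ 3) (hy3 : y ≤ 3) (hu3 : u ≤ 3) (hv3 : v ≤ 3)
    (t1 : x + y + u ≤ 8) (t2 : x + y + v ≤ 8) (t3 : x + u + v ≤ 8) (t4 : y + u + v ≤ 8)
    (hσ : x + y + u + v ≤ 10) (hρ : ρ ≤ 5 + (1 / x + 1 / y + 1 / u + 1 / v)) :
    ρ * (x + y + u + v) ≤ 200 / 3 := by
  set σ := x + y + u + v with hσd
  have hσ0 : 0 < σ := by linarith
  have h0 : ρ * σ ≤ (5 + (1 / x + 1 / y + 1 / u + 1 / v)) * σ :=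
    mul_le_mul_of_nonneg_right hρ hσ0.le
  refine h0.trans ?_
  have chord : ∀ μ t : ℝ, 1 ≤ μ → μ ≤ t → t ≤ 3 → 1 / t ≤ (3 + μ - t) / (3 * μ) := by
    intro μ t hμ ht ht3
    rw [div_le_div_iff₀ (by linarith) (by linarith)]
    nlinarith [mul_nonneg (sub_nonneg.2 ht) (sub_nonneg.2 ht3)]
  rcases le_total σ 9 with h9 | h9
  · have c1 := chord 1 x le_rfl hx hx3
    have c2 := chord 1 y le_rfl hy hy3
    have c3 := chord 1 u le_rfl hu hu3
    have c4 := chord 1 v le_rfl hv hv3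
    have h1 : 5 + (1 / x + 1 / y + 1 / u + 1 / v) ≤ (31 - σ) / 3 := by linarith
    refine (mul_le_mul_of_nonneg_right h1 hσ0.le).trans ?_
    nlinarith [mul_nonneg (sub_nonneg.2 h9) (by linarith : (0 : ℝ) ≤ 22 - σ)]
  · set μ := σ - 8 with hμ
    have hμ1 : 1 ≤ μ := by linarith
    have hμ2 : μ ≤ 2 := by linarith
    have c1 := chord μ x hμ1 (by linarith) hx3
    have c2 := chord μ y hμ1 (by linarith) hy3
    have c3 := chord μ u hμ1 (by linarith) hu3
    have c4 := chord μ v hμ1 (by linarith) hv3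
    have h1 : 5 + (1 / x + 1 / y + 1 / u + 1 / v) ≤ 6 + 4 / (3 * μ) := by
      have h2 : (3 + μ - x) / (3 * μ) + (3 + μ - y) / (3 * μ) + (3 + μ - u) / (3 * μ) +
          (3 + μ - v) / (3 * μ) = 1 + 4 / (3 * μ) := by
        have h3 : σ = μ + 8 := by linarith
        have h4 : x + y + u + v = μ + 8 := by rw [← hσd, h3]
        have h5 : (3 + μ - x) / (3 * μ) + (3 + μ - y) / (3 * μ) + (3 + μ - u) / (3 * μ) +
          (3 + μ - v) / (3 * μ) = (12 + 4 * μ - (x + y + u + v)) / (3 * μ) := by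
          ring
        rw [h5, h4]
        field_simp
        ring
      linarith
    refine (mul_le_mul_of_nonneg_right h1 hσ0.le).trans ?_
    have h3 : σ = μ + 8 := by linarith
    rw [h3]
    have h4 : (6 + 4 / (3 * μ)) * (μ + 8) = (18 * μ ^ 2 + 148 * μ + 32) / (3 * μ) := by
      field_simp
      ring
    rw [h4, div_le_div_iff₀ (by linarith) (by norm_num)]
    nlinarith [mul_nonneg (by linarith : (0 : ℝ) ≤ 9 * μ - 8) (sub_nonneg.2 hμ2)]

theorem half_harm {x y : ℝ} (hx : 0 < x) (hy : 0 < y) : 1 / (1 / x + 1 / y) ≤ (x + y) / 4 := by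
  have h1 : 1 / (1 / x + 1 / y) = x * y / (x + y) := by
    field_simp
    ring
  rw [h1, div_le_div_iff₀ (by linarith) (by norm_num)]
  nlinarith [sq_nonneg (x - y)]

theorem exp_two : (22 : ℝ) / 3 < Real.exp 2 := by
  have h1 := Real.exp_one_gt_d9
  have h2 : Real.exp 2 = Real.exp 1 ^ 2 := by
    rw [← Real.exp_nat_mul]; norm_num
  rw [h2]
  nlinarith

theorem log_lt_two : Real.log (22 / 3) < 2 := by
  rw [Real.log_lt_iff_lt_exp (by norm_num)]
  exact exp_two

/-- At most `2 m` members for `m ≤ 4`. -/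
theorem star_small {m N : ℕ} (hm : 1 ≤ m) (hm4 : m ≤ 4) (a : Fin N → Fin m → ℝ)
    (c : Fin N → ℝ) (hc : ∀ i, 0 < c i)
    (h : ∀ i j, i ≠ j → ∑ k, |a i k - a j k| = c i + c j) : N ≤ 2 * m := by
  classical
  by_contra hN
  have hN' : 2 * m + 1 ≤ N := by omega
  set ε : Fin (2 * m + 1) → Fin N := Fin.castLE hN' with hε
  have hεi : Function.Injective ε := Fin.castLE_injective hN'
  obtain ⟨b, e, z, hstar, hz, he1, hb0, hb, htop, hbot⟩ := norm_star (m := m) (N := 2 * m + 1)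
    (by omega) (by omega) (fun i => a (ε i)) (fun i => c (ε i)) (fun i => hc _)
    (fun i j hij => h _ _ (fun h => hij (hεi h)))
  have hexi : ∃ i, i ≠ z := by
    by_contra hno
    push Not at hno
    have h1 := hno ⟨0, by omega⟩
    have h2 := hno ⟨1, by omega⟩
    rw [← h2] at h1
    simp [Fin.ext_iff] at h1
  obtain ⟨i0, hi0⟩ := hexi
  have h20 := (e_le hstar hz hb0 hb i0 hi0).1
  have h21 := he1 i0
  have hm2 : (2 : ℝ) ≤ m := by linarith
  have hm2' : 2 ≤ m := by exact_mod_cast hm2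
  have hem : ∀ i, e i ≤ (m : ℝ) - 1 := by
    intro i
    by_cases hi : i = z
    · rw [hi, hz]; linarith
    · exact (e_le hstar hz hb0 hb i hi).1
  have he0 : ∀ i, 0 < e i := fun i => lt_of_lt_of_le one_pos (he1 i)
  have hs0 : ∀ i, 0 < 1 / e i := fun i => by have := he0 i; positivity
  have hs1 : ∀ i, 1 / e i ≤ 1 := fun i => by rw [div_le_one (he0 i)]; exact he1 i
  -- the conclusion from the estimate of one coordinate
  have hfin : ∀ M : ℕ, 2 * m + 1 = M + 4 → (∀ p : Fin 4 → Fin (2 * m + 1),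
      Function.Injective p → Real.log ((∑ i, 1 / e i) / (1 / e (p 0) + 1 / e (p 1)) - 1) +
          Real.log ((∑ i, 1 / e i) / (1 / e (p 2) + 1 / e (p 3)) - 1) < 4) → False := by
    intro M hM hlog
    generalize hn : 2 * m + 1 = n at *
    subst hM
    obtain ⟨f, hf, hmain⟩ := main_ineq b e he0 hstar htop hbot
    have h1 : ∑ k, (1 + 1 / 4 *
        (Real.log ((∑ i, 1 / e i) / (1 / e (f k 0) + 1 / e (f k 1)) - 1) +
          Real.log ((∑ i, 1 / e i) / (1 / e (f k 2) + 1 / e (f k 3)) - 1))) <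
        ∑ _k : Fin m, (2 : ℝ) := by
      refine Finset.sum_lt_sum_of_nonempty ⟨⟨0, by omega⟩, Finset.mem_univ _⟩ fun k _ => ?_
      have := hlog (f k) (hf k)
      linarith
    simp only [Finset.sum_const, Finset.card_univ, Fintype.card_fin, nsmul_eq_mul] at h1
    have h2 : ((2 * m + 1 : ℕ) : ℝ) = ((M + 4 : ℕ) : ℝ) := by rw [hn]
    push_cast at h2
    linarith
  refine hfin (2 * m + 1 - 4) (by omega) fun p hp => ?_
  set ρ : ℝ := ∑ i, 1 / e i with hρ
  have hρN : ρ ≤ 2 * m + 1 := by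
    have h1 : ρ ≤ ∑ _i : Fin (2 * m + 1), (1 : ℝ) := Finset.sum_le_sum fun i _ => hs1 i
    simp only [Finset.sum_const, Finset.card_univ, Fintype.card_fin, nsmul_eq_mul, mul_one] at h1
    push_cast at h1
    exact h1
  have hsum4 := sum4 (fun i => 1 / e i) (fun i => (hs0 i).le) p hp
  rw [← hρ] at hsum4
  have hS1 : 0 < 1 / e (p 0) + 1 / e (p 1) := add_pos (hs0 _) (hs0 _)
  have hS2 : 0 < 1 / e (p 2) + 1 / e (p 3) := add_pos (hs0 _) (hs0 _)
  have hx1 : 0 < ρ / (1 / e (p 0) + 1 / e (p 1)) - 1 := by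
    rw [sub_pos, one_lt_div hS1]; linarith
  have hx2 : 0 < ρ / (1 / e (p 2) + 1 / e (p 3)) - 1 := by
    rw [sub_pos, one_lt_div hS2]; linarith
  have hρ0 : 0 ≤ ρ := Finset.sum_nonneg fun i _ => (hs0 i).le
  have hq1 : ρ / (1 / e (p 0) + 1 / e (p 1)) ≤ ρ * ((e (p 0) + e (p 1)) / 4) := by
    rw [div_eq_mul_one_div]
    exact mul_le_mul_of_nonneg_left (half_harm (he0 _) (he0 _)) hρ0
  have hq2 : ρ / (1 / e (p 2) + 1 / e (p 3)) ≤ ρ * ((e (p 2) + e (p 3)) / 4) := by
    rw [div_eq_mul_one_div]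
    exact mul_le_mul_of_nonneg_left (half_harm (he0 _) (he0 _)) hρ0
  have hlt1 := log_tan hx1 (by norm_num : (0 : ℝ) < 22 / 3)
  have hlt2 := log_tan hx2 (by norm_num : (0 : ℝ) < 22 / 3)
  have hl2 := log_lt_two
  -- it suffices that the sum of the two quotients is at most `50 / 3`
  have hsuf : ρ * (e (p 0) + e (p 1) + e (p 2) + e (p 3)) ≤ 200 / 3 → 
      Real.log (ρ / (1 / e (p 0) + 1 / e (p 1)) - 1) +
          Real.log (ρ / (1 / e (p 2) + 1 / e (p 3)) - 1) < 4 := by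
    intro h1
    have h2 : ρ / (1 / e (p 0) + 1 / e (p 1)) + ρ / (1 / e (p 2) + 1 / e (p 3)) ≤ 50 / 3 := by
      linarith
    have h3 : (ρ / (1 / e (p 0) + 1 / e (p 1)) - 1) / (22 / 3) +
        (ρ / (1 / e (p 2) + 1 / e (p 3)) - 1) / (22 / 3) ≤ 2 := by
      rw [← add_div, div_le_iff₀ (by norm_num)]
      linarith
    linarith
  apply hsuf
  rcases Nat.lt_or_ge m 4 with hm3 | hm3
  · -- `m = 2, 3`
    have hm3' : (m : ℝ) ≤ 3 := by exact_mod_cast (by omega : m ≤ 3)
    have h1 := hem (p 0)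
    have h2 := hem (p 1)
    have h3 := hem (p 2)
    have h4 := hem (p 3)
    have h5 : e (p 0) + e (p 1) + e (p 2) + e (p 3) ≤ 8 := by linarith
    have h6 : ρ ≤ 7 := by linarith
    have h7 : 0 ≤ e (p 0) + e (p 1) + e (p 2) + e (p 3) := by
      linarith [he0 (p 0), he0 (p 1), he0 (p 2), he0 (p 3)]
    nlinarith
  · have hm' : m = 4 := by omega
    subst hm'
    have hle3 : ∀ i, e i ≤ 3 := fun i => by have := hem i; norm_num at this; linarith
    have hbsum : ∀ i, ∑ k, |b i k| ≤ e i + 1 := by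
      intro i
      by_cases hi : i = z
      · rw [hi]
        simp only [hb0, abs_zero, Finset.sum_const_zero]
        rw [hz]; norm_num
      · exact ((e_le hstar hz hb0 hb i hi).2).le
    have tri : ∀ i j l : Fin (2 * 4 + 1), i ≠ j → i ≠ l → j ≠ l → e i + e j + e l ≤ 8 := by
      intro i j l hij hil hjl
      have h1 : ∑ k, (|b i k - b j k| + |b i k - b l k| + |b j k - b l k|) ≤
          ∑ _k : Fin 4, (4 : ℝ) :=
        Finset.sum_le_sum fun k _ => tri_abs (hb i k) (hb j k) (hb l k)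
      rw [Finset.sum_add_distrib, Finset.sum_add_distrib, hstar i j hij, hstar i l hil,
        hstar j l hjl] at h1
      simp only [Finset.sum_const, Finset.card_univ, Fintype.card_fin, nsmul_eq_mul] at h1
      push_cast at h1
      linarith
    have n01 : p 0 ≠ p 1 := fun h => by simpa using hp h
    have n02 : p 0 ≠ p 2 := fun h => by simpa using hp h
    have n03 : p 0 ≠ p 3 := fun h => by simpa using hp h
    have n12 : p 1 ≠ p 2 := fun h => by simpa using hp h
    have n13 : p 1 ≠ p 3 := fun h => by simpa using hp h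
    have n23 : p 2 ≠ p 3 := fun h => by simpa using hp h
    have hquad : e (p 0) + e (p 1) + e (p 2) + e (p 3) ≤ 10 := by
      have h1 : ∑ k, (|b (p 0) k - b (p 1) k| + |b (p 0) k - b (p 2) k| +
          |b (p 0) k - b (p 3) k| + |b (p 1) k - b (p 2) k| + |b (p 1) k - b (p 3) k| +
          |b (p 2) k - b (p 3) k|) ≤
          ∑ k : Fin 4, (4 + |b (p 0) k| + |b (p 1) k| + |b (p 2) k| + |b (p 3) k|) :=
        Finset.sum_le_sum fun k _ => quad_abs (hb _ k) (hb _ k) (hb _ k) (hb _ k)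
      rw [Finset.sum_add_distrib, Finset.sum_add_distrib, Finset.sum_add_distrib,
        Finset.sum_add_distrib, Finset.sum_add_distrib, hstar _ _ n01, hstar _ _ n02,
        hstar _ _ n03, hstar _ _ n12, hstar _ _ n13, hstar _ _ n23, Finset.sum_add_distrib,
        Finset.sum_add_distrib, Finset.sum_add_distrib, Finset.sum_add_distrib] at h1
      simp only [Finset.sum_const, Finset.card_univ, Fintype.card_fin, nsmul_eq_mul] at h1
      push_cast at h1
      linarith [hbsum (p 0), hbsum (p 1), hbsum (p 2), hbsum (p 3)]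
    have hρ5 : ρ ≤ 5 + (1 / e (p 0) + 1 / e (p 1) + 1 / e (p 2) + 1 / e (p 3)) := by
      have h1 := sum4 (fun i => 1 - 1 / e i) (fun i => by linarith [hs1 i]) p hp
      rw [Finset.sum_sub_distrib, ← hρ] at h1
      simp only [Finset.sum_const, Finset.card_univ, Fintype.card_fin, nsmul_eq_mul] at h1
      push_cast at h1
      linarith
    exact num4 (he1 _) (he1 _) (he1 _) (he1 _) (hle3 _) (hle3 _) (hle3 _) (hle3 _)
      (tri _ _ _ n01 n02 n12) (tri _ _ _ n01 n03 n13) (tri _ _ _ n02 n03 n23)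
      (tri _ _ _ n12 n13 n23) hquad hρ5

end Pool.Agent.Smx
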