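import Pool.Agent.Smx.Bnd
import Pool.Agent.StB.MainA
import Pool.Agent.StB.MainB

/-!
# Simplices and polars of zonotopes
-/

set_option autoImplicit false

open scoped BigOperators

namespace Pool.Agent.Smx

open Pool.Agent.StB

theorem sys_star {m N : ℕ} {a : Fin N → Fin m → ℝ} {c : Fin N → ℝ} (h : SimSys a c) (i j : Fin N)
    (hij : i ≠ j) : ∑ k, |a i k - a j k| = c i + c j := by
  have h1 : ∀ k, |a i k - a j k| = max (a j k - a i k) 0 + max (a i k - a j k) 0 := by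
    intro k
    rcases le_total (a i k) (a j k) with h2 | h2
    · rw [abs_of_nonpos (by linarith), max_eq_left (by linarith), max_eq_right (by linarith)]
      ring
    · rw [abs_of_nonneg (by linarith), max_eq_right (by linarith), max_eq_left (by linarith)]
      ring
  simp only [h1]
  rw [Finset.sum_add_distrib, sim_pos h hij, sim_pos h hij.symm]

/-- Simplices. -/
theorem simplex_log {d : ℕ} (p : Fin (d + 1) → E d) (hp : AffineIndependent ℝ p) {N : ℕ}
    (c : Fin N → ℝ) (x : Fin N → E d) (hT : Tangent (convexHull ℝ (Set.range p)) c x) :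
    (N : ℝ) ≤ (4 * ((d + 1 : ℕ) : ℝ) * Real.log ((d + 1 : ℕ) : ℝ) + 2 * ((d + 1 : ℕ) : ℝ) + 4) / 3 := by
  obtain ⟨a, ha⟩ := simplex_sys p hp c x hT
  exact star_log a c hT.1 (sys_star ha)

theorem simplex_small {d : ℕ} (hd : d ≤ 3) (p : Fin (d + 1) → E d) (hp : AffineIndependent ℝ p)
    {N : ℕ} (c : Fin N → ℝ) (x : Fin N → E d)
    (hT : Tangent (convexHull ℝ (Set.range p)) c x) : N ≤ 2 * (d + 1) := by
  obtain ⟨a, ha⟩ := simplex_sys p hp c x hT
  exact star_small (by omega) (by omega) a c hT.1 (sys_star ha)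

/-- Reduction of the bodies `{|f l x| ≤ 1 for all l, ∑ k, |a k x| ≤ 1}` to star families. -/
theorem body_bound {d s n : ℕ} (f : Fin s → E d →ₗ[ℝ] ℝ) (a : Fin n → E d →ₗ[ℝ] ℝ) {N B : ℕ}
    (c : Fin N → ℝ) (x : Fin N → E d)
    (hT : Tangent {y | (∀ l, |f l y| ≤ 1) ∧ ∑ k, |a k y| ≤ 1} c x)
    (hB : ∀ (M : ℕ) (b : Fin M → Fin n → ℝ) (e : Fin M → ℝ), (∀ i, 0 < e i) →
      (∀ i j, i ≠ j → ∑ k, |b i k - b j k| = e i + e j) → M ≤ B) : N ≤ 2 ^ s * B := by
  classical
  change Tangent (sumBody f a (fun _ t => |t|)) c x at hT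
  have hφ : ∀ _k : Fin n, Gr 1 (fun t : ℝ => |t|) := fun _ =>
    ⟨fun t => abs_neg t, ⟨convex_univ, fun u _ v _ α β hα hβ _ => by
        simp only [smul_eq_mul]
        refine (abs_add_le _ _).trans (le_of_eq ?_)
        rw [abs_mul, abs_mul, abs_of_nonneg hα, abs_of_nonneg hβ]⟩,
      abs_zero, fun L t hL ht => by
        rw [abs_mul, abs_of_nonneg (by linarith : 0 ≤ L), pow_one]⟩
  have hsl : ∀ l : Fin s, ∃ col : Fin N → Bool,
      ∀ i j, col i = col j → |f l (x i) - f l (x j)| < c i + c j := by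
    intro l
    refine slab_col c (fun i => f l (x i)) hT.1 ?_
    intro i j
    by_cases hij : i = j
    · subst hij
      have := hT.1 i
      simp only [sub_self, abs_zero]
      linarith
    · exact (pair_A f a _ hφ hT hij).1 l
  choose col hcol using hsl
  refine col_split (fun i l => col l i) ?_
  intro v
  set F : Finset (Fin N) := Finset.univ.filter (fun i => (fun l => col l i) = v) with hF
  have hmem : ∀ i : Fin F.card, F.orderEmbOfFin rfl i ∈ F := fun i =>
    Finset.orderEmbOfFin_mem F rfl i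
  refine hB F.card (fun i k => a k (x (F.orderEmbOfFin rfl i)))
    (fun i => c (F.orderEmbOfFin rfl i)) (fun i => hT.1 _) ?_
  intro i j hij
  have hij' : F.orderEmbOfFin rfl i ≠ F.orderEmbOfFin rfl j := fun h =>
    hij ((F.orderEmbOfFin rfl).injective h)
  have hi := (Finset.mem_filter.1 (hmem i)).2
  have hj := (Finset.mem_filter.1 (hmem j)).2
  rcases (pair_A f a _ hφ hT hij').2 with ⟨l, hl⟩ | hb
  · exfalso
    have := hcol l _ _ (congrFun (hi.trans hj.symm) l)
    linarith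
  · have hpos : 0 < c (F.orderEmbOfFin rfl i) + c (F.orderEmbOfFin rfl j) :=
      add_pos (hT.1 _) (hT.1 _)
    have h1 : ∀ k, |(a k (x (F.orderEmbOfFin rfl i)) - a k (x (F.orderEmbOfFin rfl j))) /
        (c (F.orderEmbOfFin rfl i) + c (F.orderEmbOfFin rfl j))| =
        |a k (x (F.orderEmbOfFin rfl i)) - a k (x (F.orderEmbOfFin rfl j))| /
        (c (F.orderEmbOfFin rfl i) + c (F.orderEmbOfFin rfl j)) := by
      intro k
      rw [abs_div, abs_of_pos hpos]
    simp only [h1] at hb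
    rw [← Finset.sum_div, div_eq_one_iff_eq hpos.ne'] at hb
    exact hb

theorem body_log {d s n : ℕ} (f : Fin s → E d →ₗ[ℝ] ℝ) (a : Fin n → E d →ₗ[ℝ] ℝ) {N : ℕ}
    (c : Fin N → ℝ) (x : Fin N → E d)
    (hT : Tangent {y | (∀ l, |f l y| ≤ 1) ∧ ∑ k, |a k y| ≤ 1} c x) :
    N ≤ 2 ^ s * ⌊(4 * n * Real.log n + 2 * n + 4) / 3⌋₊ :=
  body_bound f a c x hT fun _ b e he hb => Nat.le_floor (star_log b e he hb)

theorem body_small {d s n : ℕ} (hn : 1 ≤ n) (hn4 : n ≤ 4) (f : Fin s → E d →ₗ[ℝ] ℝ)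
    (a : Fin n → E d →ₗ[ℝ] ℝ) {N : ℕ} (c : Fin N → ℝ) (x : Fin N → E d)
    (hT : Tangent {y | (∀ l, |f l y| ≤ 1) ∧ ∑ k, |a k y| ≤ 1} c x) :
    N ≤ 2 ^ s * (2 * n) :=
  body_bound f a c x hT fun _ b e he hb => star_small hn hn4 b e he hb

end Pool.Agent.Smx
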