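import Pool.Agent.Smx.Srt

/-!
# One coordinate: the test vector
-/

set_option autoImplicit false

open scoped BigOperators

namespace Pool.Agent.Smx

/-- The partial sums of the test vector. -/
noncomputable def gv (M : ℕ) (s : ℕ → ℝ) (l : ℕ) : ℝ :=
  let R : ℕ → ℝ := fun l => ∑ i ∈ Finset.range l, s i
  let ρ : ℝ := R (M + 4)
  let φ : ℕ → ℝ := fun l => √(R l * (ρ - R l) / ρ)
  if l = 0 then 0 else if l = 1 then φ 2 * (s 0 / (s 0 + s 1)) else
  if l ≤ M + 2 then φ l else if l = M + 3 then φ (M + 2) * (s (M + 3) / (s (M + 2) + s (M + 3)))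
  else 0

theorem coord {M : ℕ} (x s : ℕ → ℝ) (hx : ∀ i j, i ≤ j → j ≤ M + 3 → x i ≤ x j)
    (hs : ∀ i, i < M + 4 → 0 < s i) (h01 : x 1 = x 0) (hlast : x (M + 3) = x (M + 2)) :
    ∃ w : ℕ → ℝ, ∑ i ∈ Finset.range (M + 4), w i = 0 ∧
      -(∑ i ∈ Finset.range (M + 4), ∑ j ∈ Finset.range (M + 4), w i * w j * |x i - x j|) / 2 =
        (∑ i ∈ Finset.range (M + 4), ∑ j ∈ Finset.range (M + 4), s i * s j * |x i - x j|) /
          (2 * ∑ i ∈ Finset.range (M + 4), s i) ∧
      ∑ i ∈ Finset.range (M + 4), w i ^ 2 / s i ≤ 1 + 1 / 4 *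
        (Real.log ((∑ i ∈ Finset.range (M + 4), s i) / (s 0 + s 1) - 1) +
          Real.log ((∑ i ∈ Finset.range (M + 4), s i) / (s (M + 2) + s (M + 3)) - 1)) := by
  classical
  set R : ℕ → ℝ := fun l => ∑ i ∈ Finset.range l, s i with hR
  set ρ : ℝ := R (M + 4) with hρ
  have hRs : ∀ l, R (l + 1) = R l + s l := fun l => Finset.sum_range_succ _ _
  have hR2 : R 2 = s 0 + s 1 := by
    simp [hR, Finset.sum_range_succ]
  have hRmono : ∀ l l', l ≤ l' → l' ≤ M + 4 → R l ≤ R l' := by
    intro l l' hl hl'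
    refine Finset.sum_le_sum_of_subset_of_nonneg
      (Finset.range_subset_range.2 hl) fun i hi _ => (hs i ?_).le
    have := Finset.mem_range.1 hi
    omega
  have hs0 := hs 0 (by omega)
  have hs1 := hs 1 (by omega)
  have hsa := hs (M + 2) (by omega)
  have hsb := hs (M + 3) (by omega)
  have hRl : ∀ l, 2 ≤ l → l ≤ M + 4 → 0 < R l := by
    intro l hl hl'
    have := hRmono 2 l hl hl'
    rw [hR2] at this
    linarith
  have hρR : ∀ l, l ≤ M + 2 → 0 < ρ - R l := by
    intro l hl
    have h1 := hRmono l (M + 2) hl (by omega)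
    have h2 := hRs (M + 2)
    have h3 := hRs (M + 3)
    rw [show M + 2 + 1 = M + 3 by ring] at h2
    rw [show M + 3 + 1 = M + 4 by ring] at h3
    rw [hρ, h3, h2]
    linarith
  have hρ0 : 0 < ρ := hRl _ (by omega) le_rfl
  set φ : ℕ → ℝ := fun l => √(R l * (ρ - R l) / ρ) with hφ
  have hφ2 : ∀ l, 2 ≤ l → l ≤ M + 2 → φ l ^ 2 = R l * (ρ - R l) / ρ := by
    intro l hl hl'
    exact Real.sq_sqrt (div_nonneg (mul_nonneg (hRl l hl (by omega)).le (hρR l hl').le) hρ0.le)
  have hg : ∀ l, gv M s l = if l = 0 then 0 else if l = 1 then φ 2 * (s 0 / (s 0 + s 1)) else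
      if l ≤ M + 2 then φ l else
      if l = M + 3 then φ (M + 2) * (s (M + 3) / (s (M + 2) + s (M + 3))) else 0 := fun l => rfl
  have hg0 : gv M s 0 = 0 := by rw [hg]; simp
  have hg1 : gv M s 1 = φ 2 * (s 0 / (s 0 + s 1)) := by rw [hg]; simp
  have hgm : ∀ l, 2 ≤ l → l ≤ M + 2 → gv M s l = φ l := by
    intro l hl hl'
    rw [hg, if_neg (by omega), if_neg (by omega), if_pos hl']
  have hg3 : gv M s (M + 3) = φ (M + 2) * (s (M + 3) / (s (M + 2) + s (M + 3))) := by
    rw [hg, if_neg (by omega), if_neg (by omega), if_neg (by omega), if_pos rfl]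
  have hg4 : gv M s (M + 4) = 0 := by
    rw [hg, if_neg (by omega), if_neg (by omega), if_neg (by omega), if_neg (by omega)]
  set w : ℕ → ℝ := fun i => gv M s (i + 1) - gv M s i with hw
  have hwsum : ∀ l, ∑ i ∈ Finset.range l, w i = gv M s l := by
    intro l
    rw [hw, Finset.sum_range_sub, hg0, sub_zero]
  refine ⟨w, by rw [hwsum, hg4], ?_, ?_⟩
  · rw [show M + 4 = M + 3 + 1 by ring, idB x w (M + 3) hx, idB x s (M + 3) hx]
    rw [show M + 3 + 1 = M + 4 by ring, hwsum, hg4]
    have h1 : ∀ l ∈ Finset.range (M + 3), (x (l + 1) - x l) *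
        ((∑ i ∈ Finset.range (l + 1), w i) * (0 - ∑ i ∈ Finset.range (l + 1), w i)) =
        - ((x (l + 1) - x l) * (R (l + 1) * (ρ - R (l + 1)) / ρ)) := by
      intro l hl
      have hl' := Finset.mem_range.1 hl
      rw [hwsum]
      rcases Nat.eq_zero_or_pos l with h0 | h0
      · rw [h0, zero_add, h01]; ring
      rcases Nat.lt_or_ge l (M + 2) with h2 | h2
      · rw [hgm (l + 1) (by omega) (by omega)]
        have h3 := hφ2 (l + 1) (by omega) (by omega)
        rw [← h3]; ring
      · have h3 : l = M + 2 := by omega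
        rw [h3, show M + 2 + 1 = M + 3 by ring, hlast]; ring
    rw [Finset.sum_congr rfl h1, Finset.sum_neg_distrib]
    have h2 : ∀ l ∈ Finset.range (M + 3), (x (l + 1) - x l) *
        ((∑ i ∈ Finset.range (l + 1), s i) *
          (∑ i ∈ Finset.range (M + 4), s i - ∑ i ∈ Finset.range (l + 1), s i)) =
        ρ * ((x (l + 1) - x l) * (R (l + 1) * (ρ - R (l + 1)) / ρ)) := by
      intro l _
      change (x (l + 1) - x l) * (R (l + 1) * (ρ - R (l + 1))) = _
      field_simp
    rw [Finset.sum_congr rfl h2, ← Finset.mul_sum]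
    change _ = _ / (2 * ρ)
    field_simp
  · -- the norm of `w`
    change ∑ i ∈ Finset.range (M + 4), w i ^ 2 / s i ≤
      1 + 1 / 4 * (Real.log (ρ / (s 0 + s 1) - 1) + Real.log (ρ / (s (M + 2) + s (M + 3)) - 1))
    have h1 : ∑ i ∈ Finset.range (M + 4), w i ^ 2 / s i =
        w 0 ^ 2 / s 0 + w 1 ^ 2 / s 1 + ∑ i ∈ Finset.range M, w (i + 2) ^ 2 / s (i + 2) +
          w (M + 2) ^ 2 / s (M + 2) + w (M + 3) ^ 2 / s (M + 3) := by
      rw [show M + 4 = M + 3 + 1 by ring, Finset.sum_range_succ, show M + 3 = M + 2 + 1 by ring,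
        Finset.sum_range_succ, Finset.sum_range_succ', Finset.sum_range_succ']
      ring
    have h2 : w 0 ^ 2 / s 0 + w 1 ^ 2 / s 1 = 1 - (s 0 + s 1) / ρ := by
      have e0 : w 0 = φ 2 * (s 0 / (s 0 + s 1)) := by
        change gv M s (0 + 1) - gv M s 0 = _
        rw [zero_add, hg0, hg1, sub_zero]
      have e1 : w 1 = φ 2 * (s 1 / (s 0 + s 1)) := by
        change gv M s (1 + 1) - gv M s 1 = _
        rw [hg1, show 1 + 1 = 2 by norm_num, hgm 2 le_rfl (by omega)]
        field_simp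
        ring
      have h3 := hφ2 2 le_rfl (by omega)
      rw [e0, e1, mul_pow, mul_pow, h3, hR2]
      field_simp
    have h4 : w (M + 2) ^ 2 / s (M + 2) + w (M + 3) ^ 2 / s (M + 3) =
        1 - (s (M + 2) + s (M + 3)) / ρ := by
      have e0 : w (M + 2) = - (φ (M + 2) * (s (M + 2) / (s (M + 2) + s (M + 3)))) := by
        change gv M s (M + 2 + 1) - gv M s (M + 2) = _
        rw [hgm (M + 2) (by omega) le_rfl, show M + 2 + 1 = M + 3 by ring, hg3]
        field_simp
        ring
      have e1 : w (M + 3) = - (φ (M + 2) * (s (M + 3) / (s (M + 2) + s (M + 3)))) := by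
        change gv M s (M + 3 + 1) - gv M s (M + 3) = _
        rw [show M + 3 + 1 = M + 4 by ring, hg4, hg3]
        ring
      have h3 := hφ2 (M + 2) (by omega) le_rfl
      have h5 : R (M + 2) = ρ - (s (M + 2) + s (M + 3)) := by
        have h6 := hRs (M + 2)
        have h7 := hRs (M + 3)
        rw [show M + 2 + 1 = M + 3 by ring] at h6
        rw [show M + 3 + 1 = M + 4 by ring] at h7
        rw [hρ, h7, h6]; ring
      rw [e0, e1, neg_sq, neg_sq, mul_pow, mul_pow, h3, h5]
      field_simp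
      ring
    have h5 : ∑ i ∈ Finset.range M, w (i + 2) ^ 2 / s (i + 2) ≤
        1 / 4 * (Real.log (R (M + 2) / (ρ - R (M + 2))) - Real.log (R 2 / (ρ - R 2))) -
          (R (M + 2) - R 2) / ρ := by
      have h6 : ∀ i ∈ Finset.range M, w (i + 2) ^ 2 / s (i + 2) ≤
          (1 / 4 * Real.log (R (i + 1 + 2) / (ρ - R (i + 1 + 2))) - R (i + 1 + 2) / ρ) -
          (1 / 4 * Real.log (R (i + 2) / (ρ - R (i + 2))) - R (i + 2) / ρ) := by
        intro i hi
        have hi' := Finset.mem_range.1 hi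
        have h7 : w (i + 2) = φ (i + 2 + 1) - φ (i + 2) := by
          change gv M s (i + 2 + 1) - gv M s (i + 2) = _
          rw [hgm _ (by omega) (by omega), hgm _ (by omega) (by omega)]
        have h8 := hRs (i + 2)
        have h9 := step_le (ρ := ρ) (hRl (i + 2) (by omega) (by omega)) (hs (i + 2) (by omega))
          (by have := hρR (i + 3) (by omega); rw [show i + 3 = i + 2 + 1 by ring, h8] at this
              linarith)
        rw [← h8] at h9
        rw [h7, show i + 1 + 2 = i + 2 + 1 by ring]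
        refine h9.trans (le_of_eq ?_)
        rw [h8]
        ring
      refine (Finset.sum_le_sum h6).trans (le_of_eq ?_)
      rw [Finset.sum_range_sub (fun i => 1 / 4 * Real.log (R (i + 2) / (ρ - R (i + 2))) -
        R (i + 2) / ρ) M]
      rw [zero_add]
      ring
    have h6 : R (M + 2) = ρ - (s (M + 2) + s (M + 3)) := by
      have h6 := hRs (M + 2)
      have h7 := hRs (M + 3)
      rw [show M + 2 + 1 = M + 3 by ring] at h6
      rw [show M + 3 + 1 = M + 4 by ring] at h7
      rw [hρ, h7, h6]; ring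
    have h7 : Real.log (R (M + 2) / (ρ - R (M + 2))) =
        Real.log (ρ / (s (M + 2) + s (M + 3)) - 1) := by
      congr 1
      have h8 : s (M + 2) + s (M + 3) ≠ 0 := by linarith
      rw [h6, div_sub_one h8, sub_sub_cancel]
    have h8 : Real.log (R 2 / (ρ - R 2)) = - Real.log (ρ / (s 0 + s 1) - 1) := by
      rw [← Real.log_inv]
      congr 1
      have h9 := hρR 2 (by omega)
      rw [hR2] at h9 ⊢
      have h10 : s 0 + s 1 ≠ 0 := by linarith
      have h11 : ρ - (s 0 + s 1) ≠ 0 := by linarith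
      have h12 : ρ / (s 0 + s 1) - 1 = (ρ - (s 0 + s 1)) / (s 0 + s 1) := by field_simp
      rw [h12, inv_div]
    rw [h1, h2]
    have h9 := h4
    rw [h7, h8, h6, hR2] at h5
    have h10 : (ρ - (s (M + 2) + s (M + 3)) - (s 0 + s 1)) / ρ =
      1 - (s (M + 2) + s (M + 3)) / ρ - (s 0 + s 1) / ρ := by
      field_simp
    rw [h10] at h5
    linarith

end Pool.Agent.Smx
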