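import Pool.Agent.Smx.Crd

/-!
# One coordinate, unsorted
-/

set_option autoImplicit false

open scoped BigOperators

namespace Pool.Agent.Smx

theorem coordF {M : ℕ} (x s : Fin (M + 4) → ℝ) (hs : ∀ i, 0 < s i)
    (htop : ∃ p q, p ≠ q ∧ (∀ i, x i ≤ x p) ∧ (∀ i, x i ≤ x q))
    (hbot : ∃ p q, p ≠ q ∧ (∀ i, x p ≤ x i) ∧ (∀ i, x q ≤ x i)) :
    ∃ w : Fin (M + 4) → ℝ, ∃ f : Fin 4 → Fin (M + 4), Function.Injective f ∧ ∑ i, w i = 0 ∧
      -(∑ i, ∑ j, w i * w j * |x i - x j|) / 2 =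
        (∑ i, ∑ j, s i * s j * |x i - x j|) / (2 * ∑ i, s i) ∧
      ∑ i, w i ^ 2 / s i ≤ 1 + 1 / 4 *
        (Real.log ((∑ i, s i) / (s (f 0) + s (f 1)) - 1) +
          Real.log ((∑ i, s i) / (s (f 2) + s (f 3)) - 1)) := by
  classical
  set e : Equiv.Perm (Fin (M + 4)) := Tuple.sort x with he
  have hmono : Monotone (x ∘ e) := Tuple.monotone_sort x
  set X : ℕ → ℝ := fun n => if h : n < M + 4 then x (e ⟨n, h⟩) else 0 with hX
  set S : ℕ → ℝ := fun n => if h : n < M + 4 then s (e ⟨n, h⟩) else 0 with hS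
  have hXv : ∀ (n : ℕ) (h : n < M + 4), X n = x (e ⟨n, h⟩) := fun n h => dif_pos h
  have hSv : ∀ (n : ℕ) (h : n < M + 4), S n = s (e ⟨n, h⟩) := fun n h => dif_pos h
  have hXmono : ∀ i j, i ≤ j → j ≤ M + 3 → X i ≤ X j := by
    intro i j hij hj
    rw [hXv i (by omega), hXv j (by omega)]
    exact hmono (by simpa using hij)
  have hSpos : ∀ i, i < M + 4 → 0 < S i := by
    intro i hi
    rw [hSv i hi]
    exact hs _
  have hrank : ∀ p, ∃ n, ∃ h : n < M + 4, e ⟨n, h⟩ = p := by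
    intro p
    refine ⟨(e.symm p).1, (e.symm p).2, ?_⟩
    simp
  have h01 : X 1 = X 0 := by
    obtain ⟨p, q, hpq, hp, hq⟩ := hbot
    obtain ⟨n, hn, hpn⟩ := hrank p
    obtain ⟨n', hn', hqn⟩ := hrank q
    refine le_antisymm ?_ (hXmono 0 1 (by omega) (by omega))
    have hne : n ≠ n' := by
      rintro rfl
      exact hpq (hpn.symm.trans hqn)
    rcases Nat.eq_zero_or_pos n with h0 | h0
    · have h1 := hXmono 1 n' (by omega) (by omega)
      refine h1.trans ?_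
      rw [hXv n' hn', hqn, hXv 0 (by omega)]
      exact hq _
    · have h1 := hXmono 1 n (by omega) (by omega)
      refine h1.trans ?_
      rw [hXv n hn, hpn, hXv 0 (by omega)]
      exact hp _
  have hlast : X (M + 3) = X (M + 2) := by
    obtain ⟨p, q, hpq, hp, hq⟩ := htop
    obtain ⟨n, hn, hpn⟩ := hrank p
    obtain ⟨n', hn', hqn⟩ := hrank q
    refine le_antisymm ?_ (hXmono _ _ (by omega) (by omega))
    have hne : n ≠ n' := by
      rintro rfl
      exact hpq (hpn.symm.trans hqn)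
    rcases Nat.lt_or_ge n (M + 3) with h0 | h0
    · have h1 := hXmono n (M + 2) (by omega) (by omega)
      refine le_trans ?_ h1
      rw [hXv n hn, hpn, hXv (M + 3) (by omega)]
      exact hp _
    · have h1 := hXmono n' (M + 2) (by omega) (by omega)
      refine le_trans ?_ h1
      rw [hXv n' hn', hqn, hXv (M + 3) (by omega)]
      exact hq _
  obtain ⟨w, hw0, hw1, hw2⟩ := coord X S hXmono hSpos h01 hlast
  -- sums
  have hsum : ∀ (f : ℕ → ℝ) (g : Fin (M + 4) → ℝ), (∀ (n : ℕ) (h : n < M + 4),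
      f n = g (e ⟨n, h⟩)) → ∑ i ∈ Finset.range (M + 4), f i = ∑ i, g i := by
    intro f g hfg
    rw [Finset.sum_range, ← Equiv.sum_comp e g]
    exact Finset.sum_congr rfl fun i _ => hfg i.1 i.2
  set W : Fin (M + 4) → ℝ := fun i => w (e.symm i).1 with hW
  have hWv : ∀ (n : ℕ) (h : n < M + 4), w n = W (e ⟨n, h⟩) := by
    intro n h
    simp [hW]
  have hsumS := hsum S s hSv
  rw [hsum w W hWv] at hw0
  have hE : ∀ (u : ℕ → ℝ) (v : Fin (M + 4) → ℝ), (∀ (n : ℕ) (h : n < M + 4),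
      u n = v (e ⟨n, h⟩)) →
      ∑ i ∈ Finset.range (M + 4), ∑ j ∈ Finset.range (M + 4), u i * u j * |X i - X j| =
        ∑ i, ∑ j, v i * v j * |x i - x j| := by
    intro u v huv
    refine hsum _ (fun i => ∑ j, v i * v j * |x i - x j|) fun n h => ?_
    refine hsum _ (fun j => v (e ⟨n, h⟩) * v j * |x (e ⟨n, h⟩) - x j|) fun n' h' => ?_
    rw [huv n h, huv n' h', hXv n h, hXv n' h']
  rw [hE w W hWv, hE S s hSv, hsumS] at hw1
  rw [hsum (fun i => w i ^ 2 / S i) (fun i => W i ^ 2 / s i)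
    (fun n h => by rw [hWv n h, hSv n h]), hsumS] at hw2
  refine ⟨W, ![e ⟨0, by omega⟩, e ⟨1, by omega⟩, e ⟨M + 2, by omega⟩, e ⟨M + 3, by omega⟩], ?_,
    hw0, hw1, ?_⟩
  · intro i j hij
    fin_cases i <;> fin_cases j <;> simp [Fin.ext_iff] at hij ⊢
  · simp only [hSv 0 (by omega), hSv 1 (by omega), hSv (M + 2) (by omega),
      hSv (M + 3) (by omega)] at hw2
    simpa using hw2

end Pool.Agent.Smx
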