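import Mathlib

/-!
# Clamping the coordinates of a star family of `ℓ_1^m`
-/

set_option autoImplicit false

open scoped BigOperators

namespace Pool.Agent.Smx

theorem clamp_abs {x y T B : ℝ} (hBT : B ≤ T) (h1 : min x y ≤ T) (h2 : B ≤ max x y) :
    |max B (min T x) - max B (min T y)| =
      |x - y| - |x - max B (min T x)| - |y - max B (min T y)| := by
  have key : ∀ x y : ℝ, x ≤ y → min x y ≤ T → B ≤ max x y →
      |max B (min T x) - max B (min T y)| =
      |x - y| - |x - max B (min T x)| - |y - max B (min T y)| := by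
    intro x y hxy h1 h2
    rw [min_eq_left hxy] at h1
    rw [max_eq_right hxy] at h2
    rw [min_eq_right h1]
    have e1 : max B (min T y) = min T y := max_eq_right (le_min hBT h2)
    rw [e1]
    have e2 : max B x ≤ min T y := max_le (le_min hBT h2) (le_min h1 hxy)
    rw [abs_of_nonpos (by linarith : max B x - min T y ≤ 0),
      abs_of_nonpos (by linarith : x - y ≤ 0),
      abs_of_nonpos (by linarith [le_max_right B x] : x - max B x ≤ 0),
      abs_of_nonneg (by linarith [min_le_right T y] : 0 ≤ y - min T y)]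
    ring
  rcases le_total x y with h | h
  · exact key x y h h1 h2
  · rw [abs_sub_comm, key y x h (by rwa [min_comm]) (by rwa [max_comm]), abs_sub_comm y x]
    ring

theorem exists_TB {N : ℕ} (hN : 3 ≤ N) (x : Fin N → ℝ) : ∃ T B : ℝ, B ≤ T ∧
    (∀ i j, i ≠ j → min (x i) (x j) ≤ T) ∧ (∀ i j, i ≠ j → B ≤ max (x i) (x j)) ∧
    (∃ p q, p ≠ q ∧ T ≤ x p ∧ T ≤ x q) ∧ (∃ p q, p ≠ q ∧ x p ≤ B ∧ x q ≤ B) := by
  classical
  set P : Finset (Fin N × Fin N) := Finset.univ.filter fun t => t.1 ≠ t.2 with hP
  have hmem : ∀ i j : Fin N, i ≠ j → (i, j) ∈ P := fun i j h =>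
    Finset.mem_filter.2 ⟨Finset.mem_univ _, h⟩
  set u : Fin N := ⟨0, by omega⟩
  set v : Fin N := ⟨1, by omega⟩
  set w : Fin N := ⟨2, by omega⟩
  have huv : u ≠ v := by simp [u, v, Fin.ext_iff]
  have huw : u ≠ w := by simp [u, w, Fin.ext_iff]
  have hvw : v ≠ w := by simp [v, w, Fin.ext_iff]
  have hne : P.Nonempty := ⟨(u, v), hmem u v huv⟩
  obtain ⟨⟨p, q⟩, hpq, hT⟩ := Finset.exists_max_image P (fun t => min (x t.1) (x t.2)) hne
  obtain ⟨⟨p', q'⟩, hpq', hB⟩ := Finset.exists_min_image P (fun t => max (x t.1) (x t.2)) hne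
  have hT' : ∀ i j, i ≠ j → min (x i) (x j) ≤ min (x p) (x q) := fun i j h => hT (i, j) (hmem i j h)
  have hB' : ∀ i j, i ≠ j → max (x p') (x q') ≤ max (x i) (x j) :=
    fun i j h => hB (i, j) (hmem i j h)
  refine ⟨min (x p) (x q), max (x p') (x q'), ?_, hT', hB',
    ⟨p, q, (Finset.mem_filter.1 hpq).2, min_le_left _ _, min_le_right _ _⟩,
    ⟨p', q', (Finset.mem_filter.1 hpq').2, le_max_left _ _, le_max_right _ _⟩⟩
  have t1 := hT' u v huv
  have t2 := hT' u w huw
  have t3 := hT' v w hvw
  have b1 := hB' u v huv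
  have b2 := hB' u w huw
  have b3 := hB' v w hvw
  generalize min (x p) (x q) = T at *
  generalize max (x p') (x q') = B at *
  rcases le_total (x u) (x v) with h1 | h1 <;> rcases le_total (x v) (x w) with h2 | h2 <;>
    rcases le_total (x u) (x w) with h3 | h3 <;>
    simp only [min_eq_left, min_eq_right, max_eq_left, max_eq_right, h1, h2, h3] at t1 t2 t3 b1 b2 b3 <;>
    linarith

theorem norm_star {m N : ℕ} (hN : 3 ≤ N) (h2m : 2 * m < N) (a : Fin N → Fin m → ℝ)
    (c : Fin N → ℝ) (hc : ∀ i, 0 < c i)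
    (h : ∀ i j, i ≠ j → ∑ k, |a i k - a j k| = c i + c j) :
    ∃ (b : Fin N → Fin m → ℝ) (e : Fin N → ℝ) (z : Fin N),
      (∀ i j, i ≠ j → ∑ k, |b i k - b j k| = e i + e j) ∧ e z = 1 ∧ (∀ i, 1 ≤ e i) ∧
      (∀ k, b z k = 0) ∧ (∀ i k, |b i k| ≤ 1) ∧
      (∀ k, ∃ p q, p ≠ q ∧ (∀ i, b i k ≤ b p k) ∧ ∀ i, b i k ≤ b q k) ∧
      (∀ k, ∃ p q, p ≠ q ∧ (∀ i, b p k ≤ b i k) ∧ ∀ i, b q k ≤ b i k) := by
  classical
  choose T B hBT hT hB htop hbot using fun k : Fin m => exists_TB hN (fun i => a i k)
  set a' : Fin N → Fin m → ℝ := fun i k => max (B k) (min (T k) (a i k)) with ha'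
  set c' : Fin N → ℝ := fun i => c i - ∑ k, |a i k - a' i k| with hc'
  have hstar : ∀ i j, i ≠ j → ∑ k, |a' i k - a' j k| = c' i + c' j := by
    intro i j hij
    have h1 : ∀ k, |a' i k - a' j k| = |a i k - a j k| - |a i k - a' i k| - |a j k - a' j k| :=
      fun k => clamp_abs (hBT k) (hT k i j hij) (hB k i j hij)
    simp only [h1]
    rw [Finset.sum_sub_distrib, Finset.sum_sub_distrib, h i j hij, hc']
    ring
  have haT : ∀ i k, a' i k ≤ T k := fun i k => max_le (hBT k) (min_le_left _ _)
  have haB : ∀ i k, B k ≤ a' i k := fun i k => le_max_left _ _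
  have htop' : ∀ k, ∃ p q, p ≠ q ∧ a' p k = T k ∧ a' q k = T k := by
    intro k
    obtain ⟨p, q, hpq, hp, hq⟩ := htop k
    refine ⟨p, q, hpq, ?_, ?_⟩
    · simp only [ha']
      rw [min_eq_left hp, max_eq_right (hBT k)]
    · simp only [ha']
      rw [min_eq_left hq, max_eq_right (hBT k)]
  have hbot' : ∀ k, ∃ p q, p ≠ q ∧ a' p k = B k ∧ a' q k = B k := by
    intro k
    obtain ⟨p, q, hpq, hp, hq⟩ := hbot k
    refine ⟨p, q, hpq, ?_, ?_⟩
    · simp only [ha']
      exact max_eq_left ((min_le_right _ _).trans hp)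
    · simp only [ha']
      exact max_eq_left ((min_le_right _ _).trans hq)
  -- all `c'` are positive
  have hpos : ∀ t, 0 < c' t := by
    intro t
    by_contra hneg
    have hneg' : c' t ≤ 0 := not_lt.1 hneg
    have hbtw : ∀ i j, i ≠ t → j ≠ t → i ≠ j → ∀ k,
        |a' i k - a' t k| + |a' j k - a' t k| = |a' i k - a' j k| := by
      intro i j hi hj hij
      have h1 : ∀ k ∈ Finset.univ, 0 ≤ |a' i k - a' t k| + |a' j k - a' t k| - |a' i k - a' j k| := by
        intro k _
        have h2 : a' i k - a' j k = (a' i k - a' t k) - (a' j k - a' t k) := by ring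
        rw [h2]
        linarith [abs_sub (a' i k - a' t k) (a' j k - a' t k)]
      have h3 : ∑ k, (|a' i k - a' t k| + |a' j k - a' t k| - |a' i k - a' j k|) = 2 * c' t := by
        rw [Finset.sum_sub_distrib, Finset.sum_add_distrib, hstar i t hi, hstar j t hj,
          hstar i j hij]
        ring
      have h4 : ∑ k, (|a' i k - a' t k| + |a' j k - a' t k| - |a' i k - a' j k|) = 0 :=
        le_antisymm (by rw [h3]; linarith) (Finset.sum_nonneg h1)
      intro k
      have h5 := (Finset.sum_eq_zero_iff_of_nonneg h1).1 h4 k (Finset.mem_univ k)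
      linarith
    have hTt : ∀ k, a' t k = T k := by
      intro k
      obtain ⟨p, q, hpq, hp, hq⟩ := htop' k
      by_cases hpt : p = t
      · rw [← hpt, hp]
      by_cases hqt : q = t
      · rw [← hqt, hq]
      have h1 := hbtw p q hpt hqt hpq k
      rw [hp, hq, sub_self, abs_zero] at h1
      have h2 : |T k - a' t k| = 0 := by
        have := abs_nonneg (T k - a' t k)
        linarith
      have h3 := abs_eq_zero.1 h2
      linarith
    have hBt : ∀ k, a' t k = B k := by
      intro k
      obtain ⟨p, q, hpq, hp, hq⟩ := hbot' k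
      by_cases hpt : p = t
      · rw [← hpt, hp]
      by_cases hqt : q = t
      · rw [← hqt, hq]
      have h1 := hbtw p q hpt hqt hpq k
      rw [hp, hq, sub_self, abs_zero] at h1
      have h2 : |B k - a' t k| = 0 := by
        have := abs_nonneg (B k - a' t k)
        linarith
      have h3 := abs_eq_zero.1 h2
      linarith
    have hBTe : ∀ k, B k = T k := fun k => (hBt k).symm.trans (hTt k)
    have hall : ∀ i k, a' i k = T k := fun i k =>
      le_antisymm (haT i k) (by rw [← hBTe k]; exact haB i k)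
    have hsum0 : ∀ i j, i ≠ j → c' i + c' j = 0 := by
      intro i j hij
      rw [← hstar i j hij]
      refine Finset.sum_eq_zero fun k _ => ?_
      rw [hall i k, hall j k, sub_self, abs_zero]
    have hz : ∀ i, c' i = 0 := by
      intro i
      have h1 : ∃ j l : Fin N, i ≠ j ∧ i ≠ l ∧ j ≠ l := by
        have h2 : 2 ≤ (Finset.univ.erase i).card := by
          rw [Finset.card_erase_of_mem (Finset.mem_univ i), Finset.card_univ, Fintype.card_fin]
          omega
        obtain ⟨j, hj, l, hl, hjl⟩ := Finset.one_lt_card.1 h2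
        exact ⟨j, l, (Finset.ne_of_mem_erase hj).symm, (Finset.ne_of_mem_erase hl).symm, hjl⟩
      obtain ⟨j, l, hij, hil, hjl⟩ := h1
      have h2 := hsum0 i j hij
      have h3 := hsum0 i l hil
      have h4 := hsum0 j l hjl
      linarith
    have hex : ∀ i, ∃ k, a i k ≠ T k := by
      intro i
      by_contra hno
      push Not at hno
      have h1 := hz i
      have h2 : ∑ k, |a i k - a' i k| = 0 := by
        refine Finset.sum_eq_zero fun k _ => ?_
        rw [hall i k, hno k, sub_self, abs_zero]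
      rw [hc'] at h1
      simp only at h1
      rw [h2] at h1
      linarith [hc i]
    choose f hf using hex
    have hinj : Function.Injective (fun i => (f i, decide (T (f i) < a i (f i)))) := by
      intro i j hij
      by_contra hne
      simp only [Prod.mk.injEq, decide_eq_decide] at hij
      obtain ⟨hk, hs⟩ := hij
      have h1 := hf i
      have h2 := hf j
      rw [← hk] at h2 hs
      rcases lt_or_gt_of_ne h1 with h3 | h3
      · have h4 : a j (f i) < T (f i) := by
          refine lt_of_le_of_ne (not_lt.1 fun h5 => ?_) h2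
          exact absurd (hs.2 h5) (not_lt.2 h3.le)
        have h5 := hB (f i) i j hne
        rw [hBTe] at h5
        exact absurd h5 (not_le.2 (max_lt h3 h4))
      · have h4 := hs.1 h3
        have h5 := hT (f i) i j hne
        exact absurd h5 (not_le.2 (lt_min h3 h4))
    have := Fintype.card_le_of_injective _ hinj
    rw [Fintype.card_prod, Fintype.card_fin, Fintype.card_fin, Fintype.card_bool] at this
    omega
  have : Nonempty (Fin N) := ⟨⟨0, by omega⟩⟩
  obtain ⟨z, hz⟩ := Finite.exists_min c'
  set r := c' z with hr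
  have hr0 : 0 < r := hpos z
  have hbound : ∀ (k : Fin m) (p q : Fin N) (t : ℝ), p ≠ q → a' p k = t → a' q k = t →
      |t - a' z k| ≤ r := by
    intro k p q t hpq hp hq
    by_cases hpz : p = z
    · rw [← hp, hpz, sub_self, abs_zero]; exact hr0.le
    by_cases hqz : q = z
    · rw [← hq, hqz, sub_self, abs_zero]; exact hr0.le
    have h1 : ∑ l, |a' p l - a' q l| ≤
        ∑ l, (|a' p l - a' z l| + |a' q l - a' z l| - (if l = k then 2 * |t - a' z k| else 0)) := by
      refine Finset.sum_le_sum fun l _ => ?_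
      by_cases hl : l = k
      · rw [if_pos hl, hl, hp, hq, sub_self, abs_zero]
        linarith
      · rw [if_neg hl, sub_zero]
        have h2 : a' p l - a' q l = (a' p l - a' z l) - (a' q l - a' z l) := by ring
        rw [h2]
        exact abs_sub _ _
    rw [Finset.sum_sub_distrib, Finset.sum_add_distrib, hstar p q hpq, hstar p z hpz,
      hstar q z hqz, Finset.sum_ite_eq'] at h1
    simp only [Finset.mem_univ, if_true] at h1
    linarith
  have hab : ∀ i k, |a' i k - a' z k| ≤ r := by
    intro i k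
    obtain ⟨p, q, hpq, hp, hq⟩ := htop' k
    obtain ⟨p', q', hpq', hp', hq'⟩ := hbot' k
    have h1 := hbound k p q _ hpq hp hq
    have h2 := hbound k p' q' _ hpq' hp' hq'
    rw [abs_le] at h1 h2 ⊢
    have h3 := haT i k
    have h4 := haB i k
    constructor <;> linarith [h1.1, h1.2, h2.1, h2.2]
  refine ⟨fun i k => (a' i k - a' z k) / r, fun i => c' i / r, z, ?_, div_self hr0.ne', ?_, ?_, ?_,
    ?_, ?_⟩
  · intro i j hij
    have h1 : ∀ k, |(a' i k - a' z k) / r - (a' j k - a' z k) / r| = |a' i k - a' j k| / r := by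
      intro k
      rw [← sub_div, abs_div, abs_of_pos hr0]
      congr 2
      ring
    simp only [h1]
    rw [← Finset.sum_div, hstar i j hij, add_div]
  · intro i
    rw [one_le_div hr0]
    exact hz i
  · intro k
    simp
  · intro i k
    rw [abs_div, abs_of_pos hr0, div_le_one hr0]
    exact hab i k
  · intro k
    obtain ⟨p, q, hpq, hp, hq⟩ := htop' k
    refine ⟨p, q, hpq, fun i => ?_, fun i => ?_⟩
    · exact div_le_div_of_nonneg_right (by rw [hp]; linarith [haT i k]) hr0.le
    · exact div_le_div_of_nonneg_right (by rw [hq]; linarith [haT i k]) hr0.le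
  · intro k
    obtain ⟨p, q, hpq, hp, hq⟩ := hbot' k
    refine ⟨p, q, hpq, fun i => ?_, fun i => ?_⟩
    · exact div_le_div_of_nonneg_right (by rw [hp]; linarith [haB i k]) hr0.le
    · exact div_le_div_of_nonneg_right (by rw [hq]; linarith [haB i k]) hr0.le

end Pool.Agent.Smx
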