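import Pool.Agent.Smx.CrdF
import Pool.Agent.Smx.Nrm

/-!
# The main inequality
-/

set_option autoImplicit false

open scoped BigOperators

namespace Pool.Agent.Smx

theorem neg_type {M : ℕ} (x v : Fin (M + 1) → ℝ) (hv : ∑ i, v i = 0) :
    0 ≤ -(∑ i, ∑ j, v i * v j * |x i - x j|) / 2 := by
  classical
  set e : Equiv.Perm (Fin (M + 1)) := Tuple.sort x with he
  have hmono : Monotone (x ∘ e) := Tuple.monotone_sort x
  set X : ℕ → ℝ := fun n => if h : n < M + 1 then x (e ⟨n, h⟩) else 0 with hX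
  set U : ℕ → ℝ := fun n => if h : n < M + 1 then v (e ⟨n, h⟩) else 0 with hU
  have hXv : ∀ (n : ℕ) (h : n < M + 1), X n = x (e ⟨n, h⟩) := fun n h => dif_pos h
  have hUv : ∀ (n : ℕ) (h : n < M + 1), U n = v (e ⟨n, h⟩) := fun n h => dif_pos h
  have hXmono : ∀ i j, i ≤ j → j ≤ M → X i ≤ X j := by
    intro i j hij hj
    rw [hXv i (by omega), hXv j (by omega)]
    exact hmono (by simpa using hij)
  have hsum : ∀ (f : ℕ → ℝ) (g : Fin (M + 1) → ℝ), (∀ (n : ℕ) (h : n < M + 1),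
      f n = g (e ⟨n, h⟩)) → ∑ i ∈ Finset.range (M + 1), f i = ∑ i, g i := by
    intro f g hfg
    rw [Finset.sum_range, ← Equiv.sum_comp e g]
    exact Finset.sum_congr rfl fun i _ => hfg i.1 i.2
  have h1 : ∑ i ∈ Finset.range (M + 1), ∑ j ∈ Finset.range (M + 1), U i * U j * |X i - X j| =
        ∑ i, ∑ j, v i * v j * |x i - x j| := by
    refine hsum _ (fun i => ∑ j, v i * v j * |x i - x j|) fun n h => ?_
    refine hsum _ (fun j => v (e ⟨n, h⟩) * v j * |x (e ⟨n, h⟩) - x j|) fun n' h' => ?_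
    rw [hUv n h, hUv n' h', hXv n h, hXv n' h']
  have h2 := idB X U M hXmono
  rw [h1, hsum U v hUv, hv] at h2
  have h3 : ∑ l ∈ Finset.range M, (X (l + 1) - X l) * ((∑ i ∈ Finset.range (l + 1), U i) *
        (0 - ∑ i ∈ Finset.range (l + 1), U i)) ≤ 0 := by
    refine Finset.sum_nonpos fun l hl => ?_
    have h4 := hXmono l (l + 1) (by omega) (by have := Finset.mem_range.1 hl; omega)
    have h5 := mul_nonneg (sub_nonneg.2 h4) (sq_nonneg (∑ i ∈ Finset.range (l + 1), U i))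
    nlinarith [h5]
  rw [h2]
  linarith

theorem id_star {m N : ℕ} (y : Fin N → Fin m → ℝ) (c : Fin N → ℝ)
    (h : ∀ i j, i ≠ j → ∑ k, |y i k - y j k| = c i + c j) (w : Fin N → ℝ) (hw : ∑ i, w i = 0) :
    ∑ k, (-(∑ i, ∑ j, w i * w j * |y i k - y j k|) / 2) = ∑ i, c i * w i ^ 2 := by
  classical
  have h1 : ∑ k, (-(∑ i, ∑ j, w i * w j * |y i k - y j k|) / 2) =
      -(∑ i, ∑ j, w i * w j * ∑ k, |y i k - y j k|) / 2 := by
    rw [← Finset.sum_div, Finset.sum_neg_distrib, Finset.sum_comm]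
    congr 2
    refine Finset.sum_congr rfl fun i _ => ?_
    rw [Finset.sum_comm]
    exact Finset.sum_congr rfl fun j _ => by rw [Finset.mul_sum]
  have h2 : ∀ i j, w i * w j * ∑ k, |y i k - y j k| =
      (w i * c i) * w j + w i * (w j * c j) - (if i = j then 2 * (c i * w i ^ 2) else 0) := by
    intro i j
    by_cases hij : i = j
    · subst hij
      simp only [sub_self, abs_zero, Finset.sum_const_zero, mul_zero, if_true]
      ring
    · rw [if_neg hij, h i j hij]
      ring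
  have h3 : ∑ i, ∑ j, w i * w j * ∑ k, |y i k - y j k| = - (2 * ∑ i, c i * w i ^ 2) := by
    simp only [h2]
    rw [Finset.sum_congr rfl fun i _ => Finset.sum_sub_distrib _ _, Finset.sum_sub_distrib,
      Finset.sum_congr rfl fun i _ => Finset.sum_add_distrib, Finset.sum_add_distrib]
    rw [← Finset.sum_mul_sum, ← Finset.sum_mul_sum, hw, mul_zero, zero_mul]
    simp only [Finset.sum_ite_eq, Finset.mem_univ, if_true]
    rw [← Finset.mul_sum]
    ring
  rw [h1, h3]
  ring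

/-- The sum of the weighted distances. -/
theorem id_tot {m N : ℕ} (y : Fin N → Fin m → ℝ) (c : Fin N → ℝ) (hc : ∀ i, 0 < c i)
    (h : ∀ i j, i ≠ j → ∑ k, |y i k - y j k| = c i + c j) (hN : 1 ≤ N) :
    ∑ k, (∑ i, ∑ j, (1 / c i) * (1 / c j) * |y i k - y j k|) / (2 * ∑ i, 1 / c i) =
      (N : ℝ) - 1 := by
  classical
  have h1 : ∑ k, (∑ i, ∑ j, (1 / c i) * (1 / c j) * |y i k - y j k|) =
      ∑ i, ∑ j, (1 / c i) * (1 / c j) * ∑ k, |y i k - y j k| := by
    rw [Finset.sum_comm]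
    refine Finset.sum_congr rfl fun i _ => ?_
    rw [Finset.sum_comm]
    exact Finset.sum_congr rfl fun j _ => by rw [Finset.mul_sum]
  have h2 : ∀ i j, (1 / c i) * (1 / c j) * ∑ k, |y i k - y j k| =
      (1 / c i + 1 / c j) - (if i = j then 2 * (1 / c i) else 0) := by
    intro i j
    by_cases hij : i = j
    · subst hij
      simp only [sub_self, abs_zero, Finset.sum_const_zero, mul_zero, if_true]
      ring
    · rw [if_neg hij, h i j hij]
      have := hc i
      have := hc j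
      field_simp
      ring
  have h3 : ∑ i, ∑ j, (1 / c i) * (1 / c j) * ∑ k, |y i k - y j k| =
      ((N : ℝ) - 1) * (2 * ∑ i, 1 / c i) := by
    simp only [h2]
    rw [Finset.sum_congr rfl fun i _ => Finset.sum_sub_distrib _ _, Finset.sum_sub_distrib,
      Finset.sum_congr rfl fun i _ => Finset.sum_add_distrib, Finset.sum_add_distrib]
    simp only [Finset.sum_ite_eq, Finset.mem_univ, if_true, Finset.sum_const, Finset.card_univ,
      Fintype.card_fin, nsmul_eq_mul]
    rw [← Finset.mul_sum, ← Finset.mul_sum]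
    ring
  have hpos : 0 < ∑ i, 1 / c i := by
    have hi : 0 < 1 / c ⟨0, hN⟩ := by have := hc ⟨0, hN⟩; positivity
    exact lt_of_lt_of_le hi (Finset.single_le_sum (f := fun i => 1 / c i)
      (fun i _ => by have := hc i; positivity) (Finset.mem_univ _))
  rw [← Finset.sum_div, h1, h3, mul_div_assoc, div_self (by positivity), mul_one]

theorem main_ineq {m M : ℕ} (b : Fin (M + 4) → Fin m → ℝ) (e : Fin (M + 4) → ℝ)
    (he : ∀ i, 0 < e i) (hstar : ∀ i j, i ≠ j → ∑ k, |b i k - b j k| = e i + e j)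
    (htop : ∀ k, ∃ p q, p ≠ q ∧ (∀ i, b i k ≤ b p k) ∧ ∀ i, b i k ≤ b q k)
    (hbot : ∀ k, ∃ p q, p ≠ q ∧ (∀ i, b p k ≤ b i k) ∧ ∀ i, b q k ≤ b i k) :
    ∃ f : Fin m → Fin 4 → Fin (M + 4), (∀ k, Function.Injective (f k)) ∧
      (M : ℝ) + 3 ≤ ∑ k, (1 + 1 / 4 *
        (Real.log ((∑ i, 1 / e i) / (1 / e (f k 0) + 1 / e (f k 1)) - 1) +
          Real.log ((∑ i, 1 / e i) / (1 / e (f k 2) + 1 / e (f k 3)) - 1))) := by
  classical
  have hs : ∀ i, 0 < 1 / e i := fun i => by have := he i; positivity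
  choose w f hf hw0 hw1 hw2 using fun k : Fin m =>
    coordF (fun i => b i k) (fun i => 1 / e i) hs (htop k) (hbot k)
  refine ⟨f, hf, ?_⟩
  have h1 := id_tot b e he hstar (by omega)
  have h2 : ((M + 4 : ℕ) : ℝ) - 1 = (M : ℝ) + 3 := by push_cast; ring
  rw [h2] at h1
  rw [← h1]
  refine Finset.sum_le_sum fun k _ => ?_
  rw [← hw1 k]
  have h3 := id_star b e hstar (w k) (hw0 k)
  have h4 : -(∑ i, ∑ j, w k i * w k j * |b i k - b j k|) / 2 ≤
      ∑ l, (-(∑ i, ∑ j, w k i * w k j * |b i l - b j l|) / 2) :=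
    Finset.single_le_sum (f := fun l => -(∑ i, ∑ j, w k i * w k j * |b i l - b j l|) / 2)
      (fun l _ => neg_type (M := M + 3) (fun i => b i l) (w k) (hw0 k)) (Finset.mem_univ k)
  rw [h3] at h4
  refine h4.trans (le_trans (le_of_eq ?_) (hw2 k))
  refine Finset.sum_congr rfl fun i _ => ?_
  have := he i
  field_simp

end Pool.Agent.Smx
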