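import Pool.Agent.Smx.Bod

/-!
# Numerical consequences
-/

set_option autoImplicit false

namespace Pool.Agent.Smx

theorem log_five : Real.log 5 ≤ 17 / 10 := by
  have h1 : Real.log 5 = 2 * Real.log 2 + Real.log (5 / 4) := by
    have h2 : 2 * Real.log 2 = Real.log 4 := by
      rw [show (4 : ℝ) = 2 ^ 2 by norm_num, Real.log_pow]; norm_num
    rw [h2, ← Real.log_mul (by norm_num) (by norm_num)]
    norm_num
  have h2 := Real.log_two_lt_d9
  have h3 := Real.log_le_sub_one_of_pos (by norm_num : (0 : ℝ) < 5 / 4)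
  rw [h1]
  linarith

theorem poly_le {n : ℕ} (hn : 5 ≤ n) : (4 * (n : ℝ) ^ 2 + 24 * n + 20) / 15 ≤ 2 ^ (n - 1) := by
  induction n, hn using Nat.le_induction with
  | base => norm_num
  | succ n hn ih =>
    have h1 : (2 : ℝ) ^ (n + 1 - 1) = 2 * 2 ^ (n - 1) := by
      rw [show n + 1 - 1 = (n - 1) + 1 by omega, pow_succ]; ring
    rw [h1]
    have h2 : (5 : ℝ) ≤ n := by exact_mod_cast hn
    push_cast
    nlinarith

/-- The logarithmic bound is below `2 ^ (n - 1)` for `n ≥ 5`. -/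
theorem bound_le {n : ℕ} (hn : 5 ≤ n) :
    (4 * (n : ℝ) * Real.log n + 2 * n + 4) / 3 ≤ 2 ^ (n - 1) := by
  refine le_trans ?_ (poly_le hn)
  have h2 : (5 : ℝ) ≤ n := by exact_mod_cast hn
  have h1 := log_tan (by linarith : (0 : ℝ) < n) (by norm_num : (0 : ℝ) < 5)
  have h3 := log_five
  have h4 : Real.log n ≤ n / 5 + 7 / 10 := by linarith
  have h5 : (n : ℝ) * Real.log n ≤ n * (n / 5 + 7 / 10) :=
    mul_le_mul_of_nonneg_left h4 (by linarith)
  have h6 : (n : ℝ) * (n / 5 + 7 / 10) = n ^ 2 / 5 + 7 / 10 * n := by ring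
  nlinarith

theorem two_e {e : ℕ} (he : 1 ≤ e) : 2 * e ≤ 2 ^ e := by
  induction e, he using Nat.le_induction with
  | base => norm_num
  | succ e he ih =>
    have : 2 ≤ 2 ^ e := by
      calc 2 = 2 ^ 1 := by norm_num
        _ ≤ 2 ^ e := Nat.pow_le_pow_right (by norm_num) he
    rw [pow_succ]
    omega

theorem one_lt_log_three {e : ℝ} (he : 3 ≤ e) : 1 ≤ Real.log e := by
  rw [Real.le_log_iff_exp_le (by linarith)]
  have := Real.exp_one_lt_d9
  linarith

/-- The logarithmic bound for at most `2 ^ e / e` forms. -/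
theorem bound_le' {n e : ℕ} (he : 3 ≤ e) (hn : n * e ≤ 2 ^ e) :
    (4 * (n : ℝ) * Real.log n + 2 * n + 4) / 3 ≤ 2 ^ e := by
  rcases Nat.eq_zero_or_pos n with h0 | h0
  · subst h0
    have h1 : (8 : ℝ) ≤ 2 ^ e := by
      calc (8 : ℝ) = 2 ^ 3 := by norm_num
        _ ≤ 2 ^ e := pow_le_pow_right₀ (by norm_num) he
    norm_num
    linarith
  have he' : (3 : ℝ) ≤ e := by exact_mod_cast he
  have hn0 : (0 : ℝ) < n := by exact_mod_cast h0
  have hP : (0 : ℝ) < 2 ^ e := by positivity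
  have hnP : (n : ℝ) * e ≤ 2 ^ e := by exact_mod_cast hn
  have h2e : 2 * (e : ℝ) ≤ 2 ^ e := by exact_mod_cast two_e (by omega : 1 ≤ e)
  have hlog : Real.log n ≤ e * Real.log 2 - Real.log e := by
    have h1 : Real.log (n * e) ≤ Real.log (2 ^ e) :=
      Real.log_le_log (by positivity) hnP
    rw [Real.log_mul hn0.ne' (by linarith), Real.log_pow] at h1
    linarith
  have hle := one_lt_log_three he'
  have h2 := Real.log_two_lt_d9
  have h3 : Real.log n ≤ 3 / 4 * e - 1 := by nlinarith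
  have h4 : 4 * (n : ℝ) * Real.log n ≤ 3 * (n * e) - 4 * n := by
    have := mul_le_mul_of_nonneg_left h3 (by linarith : (0 : ℝ) ≤ 4 * n)
    nlinarith
  -- `4 n log n + 2 n + 4 ≤ 3 n e - 2 n + 4`
  rcases Nat.lt_or_ge n 2 with h5 | h5
  · have h6 : n = 1 := by omega
    subst h6
    simp only [Nat.cast_one, Real.log_one]
    have h7 : (8 : ℝ) ≤ 2 ^ e := by
      calc (8 : ℝ) = 2 ^ 3 := by norm_num
        _ ≤ 2 ^ e := pow_le_pow_right₀ (by norm_num) he
    linarith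
  · have h6 : (2 : ℝ) ≤ n := by exact_mod_cast h5
    linarith

theorem small_le {s e d B : ℕ} (hB : B ≤ 2 ^ e) (hse : s + e ≤ d) : 2 ^ s * B ≤ 2 ^ d :=
  calc 2 ^ s * B ≤ 2 ^ s * 2 ^ e := Nat.mul_le_mul_left _ hB
    _ = 2 ^ (s + e) := (pow_add _ _ _).symm
    _ ≤ 2 ^ d := Nat.pow_le_pow_right (by norm_num) hse

end Pool.Agent.Smx
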