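import Mathlib

/-!
# Sums of absolute differences along a monotone sequence; the test vector of one coordinate
-/

set_option autoImplicit false

open scoped BigOperators

namespace Pool.Agent.Smx

theorem idA (x w : ℕ → ℝ) (N : ℕ) :
    ∑ l ∈ Finset.range N, (x (l + 1) - x l) * ∑ i ∈ Finset.range (l + 1), w i =
      ∑ i ∈ Finset.range N, w i * (x N - x i) := by
  induction N with
  | zero => simp
  | succ N ih =>
    rw [Finset.sum_range_succ, ih, Finset.sum_range_succ (fun i => w i * (x (N + 1) - x i))]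
    have h1 : ∑ i ∈ Finset.range N, w i * (x (N + 1) - x i) =
        ∑ i ∈ Finset.range N, w i * (x N - x i) + (x (N + 1) - x N) * ∑ i ∈ Finset.range N, w i := by
      rw [Finset.mul_sum, ← Finset.sum_add_distrib]
      exact Finset.sum_congr rfl fun i _ => by ring
    rw [h1, Finset.sum_range_succ w]
    ring

theorem idB (x w : ℕ → ℝ) (N : ℕ) (hx : ∀ i j, i ≤ j → j ≤ N → x i ≤ x j) :
    ∑ i ∈ Finset.range (N + 1), ∑ j ∈ Finset.range (N + 1), w i * w j * |x i - x j| =
      2 * ∑ l ∈ Finset.range N, (x (l + 1) - x l) * ((∑ i ∈ Finset.range (l + 1), w i) *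
        (∑ i ∈ Finset.range (N + 1), w i - ∑ i ∈ Finset.range (l + 1), w i)) := by
  induction N with
  | zero => simp
  | succ N ih =>
    have ih' := ih fun i j hij hj => hx i j hij (by omega)
    rw [Finset.sum_range_succ (fun i => ∑ j ∈ Finset.range (N + 1 + 1), w i * w j * |x i - x j|)]
    have h1 : ∀ i, ∑ j ∈ Finset.range (N + 1 + 1), w i * w j * |x i - x j| =
        ∑ j ∈ Finset.range (N + 1), w i * w j * |x i - x j| +
          w i * w (N + 1) * |x i - x (N + 1)| := fun i => Finset.sum_range_succ _ _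
    simp only [h1]
    rw [Finset.sum_add_distrib, ih', sub_self, abs_zero, mul_zero, add_zero]
    have h2 : ∑ i ∈ Finset.range (N + 1), w i * w (N + 1) * |x i - x (N + 1)| =
        w (N + 1) * ∑ i ∈ Finset.range (N + 1), w i * (x (N + 1) - x i) := by
      rw [Finset.mul_sum]
      refine Finset.sum_congr rfl fun i hi => ?_
      have := hx i (N + 1) (by have := Finset.mem_range.1 hi; omega) le_rfl
      rw [abs_sub_comm, abs_of_nonneg (by linarith)]
      ring
    have h3 : ∑ j ∈ Finset.range (N + 1), w (N + 1) * w j * |x (N + 1) - x j| =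
        w (N + 1) * ∑ i ∈ Finset.range (N + 1), w i * (x (N + 1) - x i) := by
      rw [Finset.mul_sum]
      refine Finset.sum_congr rfl fun i hi => ?_
      have := hx i (N + 1) (by have := Finset.mem_range.1 hi; omega) le_rfl
      rw [abs_of_nonneg (by linarith)]
      ring
    rw [h2, h3, ← idA x w (N + 1)]
    have h4 : ∑ l ∈ Finset.range (N + 1), (x (l + 1) - x l) * ((∑ i ∈ Finset.range (l + 1), w i) *
        (∑ i ∈ Finset.range (N + 1 + 1), w i - ∑ i ∈ Finset.range (l + 1), w i)) =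
        ∑ l ∈ Finset.range (N + 1), (x (l + 1) - x l) * ((∑ i ∈ Finset.range (l + 1), w i) *
        (∑ i ∈ Finset.range (N + 1), w i - ∑ i ∈ Finset.range (l + 1), w i)) +
        w (N + 1) * ∑ l ∈ Finset.range (N + 1),
          (x (l + 1) - x l) * ∑ i ∈ Finset.range (l + 1), w i := by
      rw [Finset.mul_sum, ← Finset.sum_add_distrib]
      refine Finset.sum_congr rfl fun l _ => ?_
      rw [Finset.sum_range_succ w (N + 1)]
      ring
    rw [h4, Finset.sum_range_succ (fun l => (x (l + 1) - x l) *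
      ((∑ i ∈ Finset.range (l + 1), w i) *
        (∑ i ∈ Finset.range (N + 1), w i - ∑ i ∈ Finset.range (l + 1), w i))), sub_self,
      mul_zero, mul_zero, add_zero]
    ring

/-- `2 (t - 1) / (t + 1) ≤ log t`. -/
theorem log_ge {t : ℝ} (ht : 1 ≤ t) : 2 * (t - 1) / (t + 1) ≤ Real.log t := by
  have h0 : 0 < t + 1 := by linarith
  set u := (t - 1) / (t + 1) with hu
  have hu0 : 0 ≤ u := div_nonneg (by linarith) h0.le
  have hu1 : u < 1 := by rw [hu, div_lt_one h0]; linarith
  have h1 := Real.hasSum_log_sub_log_of_abs_lt_one (abs_lt.2 ⟨by linarith, hu1⟩)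
  have h2 := sum_le_hasSum (Finset.range 1) (fun i _ => by positivity) h1
  simp only [Finset.range_one, Finset.sum_singleton] at h2
  have h3 : Real.log (1 + u) - Real.log (1 - u) = Real.log t := by
    rw [← Real.log_div (by linarith) (by linarith)]
    congr 1
    rw [hu]
    field_simp
    ring
  rw [h3] at h2
  have h4 : 2 * (t - 1) / (t + 1) = 2 * u := by rw [hu]; ring
  rw [h4]
  norm_num at h2
  exact h2

/-- The step of the test vector. -/
theorem step_le {ρ R s : ℝ} (hR : 0 < R) (hs : 0 < s) (hρ : R + s < ρ) :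
    (√((R + s) * (ρ - (R + s)) / ρ) - √(R * (ρ - R) / ρ)) ^ 2 / s ≤
      1 / 4 * (Real.log ((R + s) / (ρ - (R + s))) - Real.log (R / (ρ - R))) - s / ρ := by
  have hρ0 : 0 < ρ := by linarith
  set α := √(R * (ρ - (R + s))) with hα
  set β := √((R + s) * (ρ - R)) with hβ
  have hA : 0 < R * (ρ - (R + s)) := mul_pos hR (by linarith)
  have hB : 0 < (R + s) * (ρ - R) := mul_pos (by linarith) (by linarith)
  have hα0 : 0 < α := Real.sqrt_pos.2 hA
  have hβ0 : 0 < β := Real.sqrt_pos.2 hB
  have hα2 : α ^ 2 = R * (ρ - (R + s)) := Real.sq_sqrt hA.le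
  have hβ2 : β ^ 2 = (R + s) * (ρ - R) := Real.sq_sqrt hB.le
  have hd : β ^ 2 - α ^ 2 = s * ρ := by rw [hα2, hβ2]; ring
  have hαβ : α < β := by nlinarith [mul_pos hs hρ0]
  -- the square
  have h1 : √((R + s) * (ρ - (R + s)) / ρ) * √(R * (ρ - R) / ρ) = α * β / ρ := by
    rw [← Real.sqrt_mul (by apply div_nonneg _ hρ0.le; exact mul_nonneg (by linarith) (by linarith)),
      hα, hβ, ← Real.sqrt_mul hA.le]
    rw [show (R + s) * (ρ - (R + s)) / ρ * (R * (ρ - R) / ρ) =
      (R * (ρ - (R + s)) * ((R + s) * (ρ - R))) / ρ ^ 2 by field_simp]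
    rw [Real.sqrt_div (mul_pos hA hB).le, Real.sqrt_sq hρ0.le]
  have h2 : √((R + s) * (ρ - (R + s)) / ρ) ^ 2 = (R + s) * (ρ - (R + s)) / ρ :=
    Real.sq_sqrt (div_nonneg (mul_nonneg (by linarith) (by linarith)) hρ0.le)
  have h3 : √(R * (ρ - R) / ρ) ^ 2 = R * (ρ - R) / ρ :=
    Real.sq_sqrt (div_nonneg (mul_nonneg (by linarith) (by linarith)) hρ0.le)
  have h4 : (√((R + s) * (ρ - (R + s)) / ρ) - √(R * (ρ - R) / ρ)) ^ 2 =
      ((β - α) ^ 2 - s ^ 2) / ρ := by
    have : (√((R + s) * (ρ - (R + s)) / ρ) - √(R * (ρ - R) / ρ)) ^ 2 =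
      √((R + s) * (ρ - (R + s)) / ρ) ^ 2 + √(R * (ρ - R) / ρ) ^ 2 -
        2 * (√((R + s) * (ρ - (R + s)) / ρ) * √(R * (ρ - R) / ρ)) := by ring
    rw [this, h1, h2, h3]
    have h5 : (β - α) ^ 2 = β ^ 2 + α ^ 2 - 2 * (α * β) := by ring
    rw [h5, hα2, hβ2]
    field_simp
    ring
  have h6 : Real.log ((R + s) / (ρ - (R + s))) - Real.log (R / (ρ - R)) =
      2 * Real.log (β / α) := by
    have h7 : 2 * Real.log (β / α) = Real.log ((β / α) ^ 2) := by
      rw [Real.log_pow]; norm_num
    rw [h7, ← Real.log_div (div_pos (by linarith) (by linarith)).ne'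
      (div_pos hR (by linarith)).ne', div_pow, hα2, hβ2]
    congr 1
    have : ρ - (R + s) ≠ 0 := by linarith
    have : ρ - R ≠ 0 := by linarith
    field_simp
  rw [h4, h6]
  have h8 := log_ge ((one_le_div hα0).2 hαβ.le)
  have h9 : 2 * (β / α - 1) / (β / α + 1) = 2 * (β - α) / (β + α) := by
    field_simp
  rw [h9] at h8
  have h10 : s = (β ^ 2 - α ^ 2) / ρ := by rw [hd]; field_simp
  have h11 : ((β - α) ^ 2 - s ^ 2) / ρ / s = (β - α) / (β + α) - s / ρ := by
    have h12 : (β - α) ^ 2 / ρ / s = (β - α) / (β + α) := by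
      rw [div_div, mul_comm ρ s, ← hd]
      have h13 : β ^ 2 - α ^ 2 = (β - α) * (β + α) := by ring
      rw [h13]
      have h14 : β - α ≠ 0 := by linarith
      have h15 : β + α ≠ 0 := by linarith
      field_simp
    rw [← h12]
    field_simp
  rw [h11]
  have h16 : 2 * (β - α) / (β + α) = 2 * ((β - α) / (β + α)) := by ring
  rw [h16] at h8
  linarith

end Pool.Agent.Smx
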